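import Pool.Agent.H626R2.Loc.ODefs

/-!
O2 of h626_tasks (helper485): derivatives of simple polynomials are sums of two simple ones.
-/

set_option autoImplicit false

namespace Pool.Agent.H626R2.Loc

open MvPolynomial

namespace O2

variable {K : Type} [Field K] {n : ℕ}

lemma supp_deriv (p : Polynomial K) : (Polynomial.derivative p).support.card ≤ p.support.card := by
  refine Finset.card_le_card_of_injOn (fun i => i + 1) ?_ ?_
  · intro i hi
    have hi' : i ∈ (Polynomial.derivative p).support := hi
    rw [Polynomial.mem_support_iff, Polynomial.coeff_derivative] at hi'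
    have : i + 1 ∈ p.support := by
      rw [Polynomial.mem_support_iff]
      exact left_ne_zero_of_mul hi'
    exact this
  · intro i _ j _ h
    exact Nat.succ_injective h

lemma coeff_pd (m : Fin n) (q : MvPolynomial (Fin n) K) (s : Fin n →₀ ℕ) :
    coeff s (pderiv m q) = coeff (s + Finsupp.single m 1) q * ((s m : K) + 1) := by
  induction q using MvPolynomial.induction_on' with
  | add p q hp hq => rw [map_add, coeff_add, hp, hq, coeff_add, add_mul]
  | monomial u a =>
    rw [pderiv_monomial, coeff_monomial, coeff_monomial]
    by_cases h : u = s + Finsupp.single m 1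
    · subst h
      simp
    · rw [if_neg h, zero_mul]
      by_cases h2 : u - Finsupp.single m 1 = s
      · rw [if_pos h2]
        have : u m = 0 := by
          by_contra h3
          apply h
          rw [← h2]
          refine (tsub_add_cancel_of_le ?_).symm
          rw [Finsupp.single_le_iff]
          omega
        rw [this]; simp
      · rw [if_neg h2]

lemma mem_supp_pd (m : Fin n) (q : MvPolynomial (Fin n) K) (s : Fin n →₀ ℕ)
    (h : s ∈ (pderiv m q).support) : s + Finsupp.single m 1 ∈ q.support := by
  rw [mem_support_iff, coeff_pd] at h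
  rw [mem_support_iff]
  exact left_ne_zero_of_mul h

lemma supp_pd (m : Fin n) (q : MvPolynomial (Fin n) K) :
    (pderiv m q).support.card ≤ q.support.card := by
  refine Finset.card_le_card_of_injOn (fun s => s + Finsupp.single m 1) ?_ ?_
  · intro s hs
    exact mem_supp_pd m q s hs
  · intro i _ j _ h
    exact add_right_cancel h

lemma deg_pd (m : Fin n) (q : MvPolynomial (Fin n) K) (i : Fin n) {d : ℕ} (h : q.degreeOf i ≤ d) :
    (pderiv m q).degreeOf i ≤ d := by
  rw [degreeOf_le_iff] at h ⊢
  intro s hs
  refine le_trans ?_ (h _ (mem_supp_pd m q s hs))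
  simp

lemma pd_aeval (m i : Fin n) (p : Polynomial K) :
    pderiv m (Polynomial.aeval (X i : MvPolynomial (Fin n) K) p)
      = if i = m then Polynomial.aeval (X i) (Polynomial.derivative p) else 0 := by
  rw [Derivation.map_aeval, pderiv_X]
  by_cases h : i = m
  · subst h; simp
  · simp [h]

lemma sum_case {L s d : ℕ} {σ : MvPolynomial (Fin n) K} (h : SumS L s d σ) (m : Fin n) :
    SumS L s d (pderiv m σ) := by
  obtain ⟨u, q, h1, h2, h3, rfl⟩ := h
  refine ⟨Pi.single m (Polynomial.derivative (u m)), pderiv m q, ?_, le_trans (supp_pd m q) h2,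
    fun i => deg_pd m q i (h3 i), ?_⟩
  · intro i
    by_cases h : i = m
    · subst h
      rw [Pi.single_eq_same]
      exact le_trans (supp_deriv _) (h1 _)
    · rw [Pi.single_eq_of_ne h]
      simp
  · rw [map_add, map_sum]
    congr 1
    refine Finset.sum_congr rfl fun i _ => ?_
    rw [pd_aeval]
    by_cases h : i = m
    · subst h
      rw [if_pos rfl, Pi.single_eq_same]
    · rw [if_neg h, Pi.single_eq_of_ne h, map_zero]

lemma pd_prod (m : Fin n) (u : Fin n → Polynomial K) :
    pderiv m (∏ i, Polynomial.aeval (X i : MvPolynomial (Fin n) K) (u i))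
      = ∏ i, Polynomial.aeval (X i) (Function.update u m (Polynomial.derivative (u m)) i) := by
  have h0 : ∀ S : Finset (Fin n), m ∉ S →
      pderiv m (∏ i ∈ S, Polynomial.aeval (X i : MvPolynomial (Fin n) K) (u i)) = 0 := by
    intro S
    induction S using Finset.induction_on with
    | empty => intro _; rw [Finset.prod_empty]; exact Derivation.map_one_eq_zero _
    | insert a S ha ih =>
      intro h
      rw [Finset.mem_insert, not_or] at h
      rw [Finset.prod_insert ha, Derivation.leibniz, ih h.2, pd_aeval, if_neg (Ne.symm h.1)]
      simp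
  rw [← Finset.mul_prod_erase Finset.univ _ (Finset.mem_univ m),
    ← Finset.mul_prod_erase Finset.univ (fun i => Polynomial.aeval (X i)
      (Function.update u m (Polynomial.derivative (u m)) i)) (Finset.mem_univ m),
    Derivation.leibniz, h0 _ (Finset.notMem_erase m _), pd_aeval, if_pos rfl, smul_zero, zero_add,
    Function.update_self, smul_eq_mul, mul_comm]
  congr 1
  refine Finset.prod_congr rfl fun i hi => ?_
  rw [Function.update_of_ne (Finset.ne_of_mem_erase hi)]

end O2

/-- O2. -/
theorem pderiv_simpleS {K : Type} [Field K] {n : ℕ} {L s d : ℕ} {σ : MvPolynomial (Fin n) K} (hσ : σ ∈ SimpleS n K L s d)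
    (m : Fin n) : SumProd 2 (SimpleS n K L s d) (pderiv m σ) := by
  rcases hσ with h | h
  · refine ⟨![1, 0], ![{pderiv m σ}, 0], ?_, ?_⟩
    · intro i
      fin_cases i
      · intro g hg
        have : g = pderiv m σ := by simpa using hg
        rw [this]
        exact Or.inl (O2.sum_case h m)
      · intro g hg
        simp at hg
    · simp [Fin.sum_univ_two]
  · obtain ⟨u, q, h1, h2, h3, rfl⟩ := h
    refine ⟨![1, 1], ![{(∏ i, Polynomial.aeval (X i) (Function.update u m (Polynomial.derivative (u m)) i)) * q},
      {(∏ i, Polynomial.aeval (X i) (u i)) * pderiv m q}], ?_, ?_⟩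
    · intro i
      fin_cases i
      · intro g hg
        have : g = (∏ i, Polynomial.aeval (X i) (Function.update u m (Polynomial.derivative (u m)) i)) * q := by
          simpa using hg
        rw [this]
        refine Or.inr ⟨_, q, ?_, h2, h3, rfl⟩
        intro i
        by_cases h : i = m
        · subst h
          rw [Function.update_self]
          exact le_trans (O2.supp_deriv _) (h1 _)
        · rw [Function.update_of_ne h]
          exact h1 i
      · intro g hg
        have : g = (∏ i, Polynomial.aeval (X i) (u i)) * pderiv m q := by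
          simpa using hg
        rw [this]
        exact Or.inr ⟨u, pderiv m q, h1, le_trans (O2.supp_pd m q) h2, fun i => O2.deg_pd m q i (h3 i), rfl⟩
    · rw [Derivation.leibniz, O2.pd_prod]
      simp [Fin.sum_univ_two]
      ring

end Pool.Agent.H626R2.Loc
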