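import Pool.Agent.H306R2.RZ.Defs2
import Pool.Agent.H485R2.RZ2_NfD
import Pool.Agent.H739R4.RZ2_C7
import Pool.Agent.H553R2.RZ2_C6

set_option autoImplicit false

/-!
Project RZ, task TR2.
-/

namespace Pool.Agent.H485R2.RZ2TR2

open Finset Filter Topology MeasureTheory
open Pool.Agent.H306R2.RZ Pool.Agent.H485R2.RZN

noncomputable section

/-- finite form of the mollifier -/
theorem Md_fin {L θ : ℝ} (hL : 0 < L) {Q : ℝ → ℝ} (h : ∀ t, θ ≤ t → Q t = 0) (d : ℕ) :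
    Md 2 L Q d = ∑ n ∈ range ⌈Real.exp (L * θ)⌉₊, if Nat.Coprime n 2 then
      ((ArithmeticFunction.moebius n : ℤ) : ℝ) * js (8 * (d : ℤ)) n / Real.sqrt n *
      Q (Real.log n / L) else 0 := by
  unfold Md
  refine tsum_eq_sum fun n hn => ?_
  rw [Finset.mem_range, not_lt, Nat.ceil_le] at hn
  have h1 : L * θ ≤ Real.log n := by
    rw [Real.le_log_iff_exp_le (lt_of_lt_of_le (Real.exp_pos _) hn)]
    exact hn
  have h2 : θ ≤ Real.log n / L := by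
    rw [le_div_iff₀ hL]
    linarith
  rw [h _ h2, mul_zero, ite_self]

theorem hasDerivAt_Md {L θ : ℝ} (hL : 0 < L) {r : ℝ → ℝ} (κ : ℝ → ℝ)
    (hr : ∀ t, θ ≤ t → r t = 0) (d : ℕ) (x : ℝ) :
    HasDerivAt (fun z => Md 2 L (fun t => Real.exp (-(z * t)) * r t * κ t) d)
      (Md 2 L (fun t => -t * Real.exp (-(x * t)) * r t * κ t) d) x := by
  have h1 : ∀ z t, θ ≤ t → Real.exp (-(z * t)) * r t * κ t = 0 := fun z t ht => by
    rw [hr t ht, mul_zero, zero_mul]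
  have h2 : ∀ t, θ ≤ t → -t * Real.exp (-(x * t)) * r t * κ t = 0 := fun t ht => by
    rw [hr t ht, mul_zero, zero_mul]
  rw [Md_fin hL h2]
  have h3 : (fun z => Md 2 L (fun t => Real.exp (-(z * t)) * r t * κ t) d) = fun z =>
      ∑ n ∈ range ⌈Real.exp (L * θ)⌉₊, if Nat.Coprime n 2 then
      ((ArithmeticFunction.moebius n : ℤ) : ℝ) * js (8 * (d : ℤ)) n / Real.sqrt n *
      (Real.exp (-(z * (Real.log n / L))) * r (Real.log n / L) * κ (Real.log n / L)) else 0 := by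
    funext z
    exact Md_fin hL (h1 z) d
  rw [h3]
  refine HasDerivAt.fun_sum fun n _ => ?_
  split_ifs with h
  · refine HasDerivAt.const_mul _ ?_
    have h4 : HasDerivAt (fun z : ℝ => Real.exp (-(z * (Real.log n / L))))
        (Real.exp (-(x * (Real.log n / L))) * (-(1 * (Real.log n / L)))) x :=
      (((hasDerivAt_id x).mul_const _).neg).exp
    refine ((h4.mul_const _).mul_const _).congr_deriv ?_
    ring
  · exact hasDerivAt_const x 0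

theorem continuous_Md1 {L θ : ℝ} (hL : 0 < L) {r : ℝ → ℝ} (κ : ℝ → ℝ)
    (hr : ∀ t, θ ≤ t → r t = 0) (d : ℕ) :
    Continuous (fun z => Md 2 L (fun t => -t * Real.exp (-(z * t)) * r t * κ t) d) := by
  have h2 : ∀ x t, θ ≤ t → -t * Real.exp (-(x * t)) * r t * κ t = 0 := fun x t ht => by
    rw [hr t ht, mul_zero, zero_mul]
  have h3 : (fun z => Md 2 L (fun t => -t * Real.exp (-(z * t)) * r t * κ t) d) = fun z =>
      ∑ n ∈ range ⌈Real.exp (L * θ)⌉₊, if Nat.Coprime n 2 then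
      ((ArithmeticFunction.moebius n : ℤ) : ℝ) * js (8 * (d : ℤ)) n / Real.sqrt n *
      (-(Real.log n / L) * Real.exp (-(z * (Real.log n / L))) * r (Real.log n / L) *
        κ (Real.log n / L)) else 0 := by
    funext z
    exact Md_fin hL (h2 z) d
  rw [h3]
  refine continuous_finsetSum _ fun n _ => ?_
  split_ifs
  · fun_prop
  · exact continuous_const

theorem contDiffAt_Gamma {y : ℝ} (hy : 0 < y) : ContDiffAt ℝ 1 Real.Gamma y := by
  have h1 : DifferentiableOn ℂ Complex.Gamma {s | 0 < s.re} := by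
    intro s hs
    refine (Complex.differentiableAt_Gamma s fun m hm => ?_).differentiableWithinAt
    have h2 : 0 < s.re := hs
    rw [hm, Complex.neg_re, Complex.natCast_re] at h2
    have : (0 : ℝ) ≤ m := Nat.cast_nonneg m
    linarith
  have h3 : AnalyticAt ℂ Complex.Gamma (y : ℂ) :=
    h1.analyticAt ((isOpen_lt continuous_const Complex.continuous_re).mem_nhds
      (by simpa using hy))
  exact h3.contDiffAt.real_of_complex

theorem contDiffAt_Kd {L : ℝ} (hL : 0 < L) {d : ℕ} (hd : d ≠ 0) {x : ℝ} (hx : 0 < x) :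
    ContDiffAt ℝ 1 (Kd L d) x := by
  have hd' : (0 : ℝ) < d := by exact_mod_cast Nat.pos_of_ne_zero hd
  have hid : ContDiffAt ℝ 1 (fun z : ℝ => z) x := contDiffAt_id
  have h1 : ContDiffAt ℝ 1 (fun z : ℝ => Real.exp (-(z / 2))) x :=
    ((hid.div_const 2).neg).exp
  have h2 : ContDiffAt ℝ 1 (fun z : ℝ => (8 * (d : ℝ)) ^ (z / (2 * L))) x :=
    contDiffAt_const.rpow (hid.div_const _) (by positivity)
  have h3 : ContDiffAt ℝ 1 (fun z : ℝ => (1 / 2 + z / L) / 2) x :=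
    (contDiffAt_const.add (hid.div_const L)).div_const 2
  have h4 : ContDiffAt ℝ 1 (fun z : ℝ => Real.pi ^ (-((1 / 2 + z / L) / 2))) x :=
    contDiffAt_const.rpow h3.neg Real.pi_ne_zero
  have h5 : ContDiffAt ℝ 1 (fun z : ℝ => Real.Gamma ((1 / 2 + z / L) / 2)) x :=
    ContDiffAt.comp (g := Real.Gamma) x (contDiffAt_Gamma (by positivity)) h3
  have h6 := ((h1.mul h2).mul (h4.mul h5)).div_const g0
  exact h6

/-- the statement of C6 -/
def SC6 : Prop := ∀ (d : ℕ) (_ : Odd d) (_ : Squarefree d) (δ : ℝ) (_ : 0 < δ) (ρ : ℝ → ℝ)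
    (_ : RH δ ρ) (L : ℝ) (_ : 0 < L) (x : ℝ) (_ : 0 ≤ x),
    Nf L (KW L (be L d) (Ph ρ x)) d = Kd L d x * LLd d (1 / 2 + x / L)

theorem hasDerivAt_Kd {L : ℝ} (hL : 0 < L) {d : ℕ} (hd : d ≠ 0) {x : ℝ} (hx : 0 < x) :
    HasDerivAt (Kd L d) (KW L (be L d) (Ex1 x) 0) x := by
  refine ((Pool.Agent.H739R4.RZ2.C7 d hd L hL x hx.le 0).2).congr_of_eventuallyEq ?_
  filter_upwards [lt_mem_nhds hx] with z hz
  rw [(Pool.Agent.H739R4.RZ2.C7 d hd L hL z (le_of_lt hz) 0).1, mul_zero, neg_zero, Real.exp_zero, mul_one]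

theorem continuousOn_Kd1 {L : ℝ} (hL : 0 < L) {d : ℕ} (hd : d ≠ 0) :
    ContinuousOn (fun x => KW L (be L d) (Ex1 x) 0) (Set.Ioi 0) := by
  have h1 : ContDiffOn ℝ 1 (Kd L d) (Set.Ioi 0) := fun x hx =>
    (contDiffAt_Kd hL hd hx).contDiffWithinAt
  refine (h1.continuousOn_deriv_of_isOpen isOpen_Ioi le_rfl).congr fun x hx => ?_
  exact ((hasDerivAt_Kd hL hd hx).deriv).symm

theorem TR2_of (hC6 : SC6) (L : ℝ) (hL : 4 ≤ L) (δ e θ : ℝ) (hδ : 0 < δ)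
    (_hδ1 : δ ≤ 1 / 64) (_hθ : 0 < θ)
    (_hθ1 : θ < 1 / 2) (ρ r κ : ℝ → ℝ) (hρ : RH δ ρ) (hr : ST (θ / 4) θ r) (_hκ : KP δ e κ)
    (_he : 0 < e) (d : ℕ) (hd : Odd d) (hs : Squarefree d) (x0 : ℝ) (h1 : 1 ≤ x0) (h2 : x0 ≤ L / 2)
    (h0 : LLd d (1 / 2 + x0 / L) = 0) :
    Kd L d x0 ^ 2 ≤ Gu L ρ r κ d (L / 2) ^ 2 +
      ∫ x in x0..(L / 2), 2 * |Gu L ρ r κ d x| * |Gu1 L ρ r κ d x| := by
  have hL0 : 0 < L := by linarith
  have hd0 : d ≠ 0 := hd.pos.ne'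
  have hder : ∀ x, 0 < x → HasDerivAt (Gu L ρ r κ d) (Gu1 L ρ r κ d x) x := by
    intro x hx
    exact (hasDerivAt_Kd hL0 hd0 hx).sub ((Nf_Ph_hasDerivAt hρ hL0 (be L d) d x).mul
      (hasDerivAt_Md hL0 κ hr.zero d x))
  have hc1 : ContinuousOn (Gu1 L ρ r κ d) (Set.Ioi 0) := by
    have hM : Continuous (fun z => Md 2 L (fun t => Real.exp (-(z * t)) * r t * κ t) d) :=
      continuous_iff_continuousAt.2 fun x => (hasDerivAt_Md hL0 κ hr.zero d x).continuousAt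
    exact (continuousOn_Kd1 hL0 hd0).sub
      ((((Nf_Ph1_continuous hρ hL0 (be L d) d).mul hM).add
        ((Nf_Ph_continuous hρ hL0 (be L d) d).mul (continuous_Md1 hL0 κ hr.zero d))).continuousOn)
  have hc0 : ContinuousOn (Gu L ρ r κ d) (Set.Ioi 0) := fun x hx =>
    (hder x hx).continuousAt.continuousWithinAt
  have hsub : Set.uIcc x0 (L / 2) ⊆ Set.Ioi 0 := by
    rw [Set.uIcc_of_le h2]
    intro x hx
    exact lt_of_lt_of_le (by linarith) hx.1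
  have hint : IntervalIntegrable (fun x => 2 * Gu L ρ r κ d x * Gu1 L ρ r κ d x) volume x0
      (L / 2) :=
    (((hc0.mono hsub).const_smul (2 : ℝ)).mul (hc1.mono hsub)).intervalIntegrable
  have hFTC : ∫ x in x0..(L / 2), 2 * Gu L ρ r κ d x * Gu1 L ρ r κ d x =
      Gu L ρ r κ d (L / 2) ^ 2 - Gu L ρ r κ d x0 ^ 2 := by
    refine intervalIntegral.integral_eq_sub_of_hasDerivAt
      (f := fun x => Gu L ρ r κ d x ^ 2) (fun x hx => ?_) hint
    refine ((hder x (hsub hx)).pow 2).congr_deriv ?_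
    norm_num
  have h3 : |∫ x in x0..(L / 2), 2 * Gu L ρ r κ d x * Gu1 L ρ r κ d x| ≤
      ∫ x in x0..(L / 2), 2 * |Gu L ρ r κ d x| * |Gu1 L ρ r κ d x| := by
    refine (intervalIntegral.abs_integral_le_integral_abs h2).trans (le_of_eq ?_)
    refine intervalIntegral.integral_congr fun x _ => ?_
    rw [abs_mul, abs_mul, abs_two]
  have h4 : Gu L ρ r κ d x0 = Kd L d x0 := by
    unfold Gu
    rw [hC6 d hd hs δ hδ ρ hρ L hL0 x0 (by linarith), h0, mul_zero, zero_mul, sub_zero]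
  rw [h4] at hFTC
  have h5 := neg_abs_le (∫ x in x0..(L / 2), 2 * Gu L ρ r κ d x * Gu1 L ρ r κ d x)
  linarith

theorem TR2 (L : ℝ) (hL : 4 ≤ L) (δ e θ : ℝ) (hδ : 0 < δ) (hδ1 : δ ≤ 1 / 64) (hθ : 0 < θ)
    (hθ1 : θ < 1 / 2) (ρ r κ : ℝ → ℝ) (hρ : RH δ ρ) (hr : ST (θ / 4) θ r) (hκ : KP δ e κ)
    (he : 0 < e) (d : ℕ) (hd : Odd d) (hs : Squarefree d) (x0 : ℝ) (h1 : 1 ≤ x0) (h2 : x0 ≤ L / 2)
    (h0 : LLd d (1 / 2 + x0 / L) = 0) :
    Kd L d x0 ^ 2 ≤ Gu L ρ r κ d (L / 2) ^ 2 +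
      ∫ x in x0..(L / 2), 2 * |Gu L ρ r κ d x| * |Gu1 L ρ r κ d x| :=
  TR2_of (fun d hd hs δ hδ ρ hρ L hL x hx => Pool.Agent.H553R2.RZ2_C6.C6 d hd hs δ hδ ρ hρ L hL x hx)
    L hL δ e θ hδ hδ1 hθ hθ1 ρ r κ hρ hr hκ he d hd hs x0 h1 h2 h0

end

end Pool.Agent.H485R2.RZ2TR2
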