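import Pool.Agent.H175G.Stmts2

set_option linter.unusedVariables false

namespace Pool.Agent.H175G.N5

open Finset Classical
open Pool.Agent.H175R2 (DT nt on cpt Cn P4Free)

variable {V : Type}

lemma mod_of_attach (hA : AttachStmt) : ∃ M : ℕ → ℕ, ∀ (V : Type) (G : SimpleGraph V) (K : ℕ)
    (R C : Finset V), BD G K (R \ C) → BD G 1 C →
    (∀ x ∈ R, x ∉ C → ∀ c ∈ C, ∀ c' ∈ C, G.Adj x c → G.Adj x c') → BD G (M K) R := by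
  obtain ⟨B, hB⟩ := hA
  refine ⟨fun K => B K 1 (Fintype.card Bool), ?_⟩
  intro V G K R C h1 h2 h3
  have key := hB V G Bool (Option V) K 1 (R \ C) C (fun y => decide (∃ c ∈ C, G.Adj y c))
    (fun _ l => l = true) (fun x => if x ∈ C then none else some x) h1 ?_ ?_ ?_
  · exact key.sub (by intro x hx; simp only [mem_union, mem_sdiff]; tauto)
  · intro x hx y hy hxy
    rw [mem_sdiff] at hx hy
    simpa [hx.2, hy.2] using hxy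
  · intro x hx
    by_cases hxC : x ∈ C
    · refine h2.sub ?_
      intro y hy
      by_contra hyC
      simp [hxC, hyC] at hy
    · refine (BD.singleton (x := x)).sub ?_
      intro y hy
      rw [mem_singleton]
      by_cases hyC : y ∈ C
      · simp [hxC, hyC] at hy
      · simp [hxC, hyC] at hy
        exact hy.2
  · intro x hx y hy hxy
    have hyC : y ∉ C := by
      intro hyC; exact hxy (by simp [hx, hyC])
    have hyR : y ∈ R := by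
      simp only [mem_union, mem_sdiff] at hy; tauto
    simp only [decide_eq_true_eq]
    constructor
    · intro h; exact ⟨x, hx, h.symm⟩
    · rintro ⟨c, hc, h⟩; exact (h3 y hyR hyC c hc x hx h).symm

/-! ### local facts -/

variable {G : SimpleGraph V} {v0 v1 v2 v3 : V}

abbrev t01 (G : SimpleGraph V) (v0 v1 v2 v3 x : V) : Prop :=
  G.Adj v0 x ∧ G.Adj v1 x ∧ ¬ G.Adj v2 x ∧ ¬ G.Adj v3 x
abbrev t23 (G : SimpleGraph V) (v0 v1 v2 v3 x : V) : Prop :=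
  ¬ G.Adj v0 x ∧ ¬ G.Adj v1 x ∧ G.Adj v2 x ∧ G.Adj v3 x
abbrev t02 (G : SimpleGraph V) (v0 v1 v2 v3 x : V) : Prop :=
  G.Adj v0 x ∧ ¬ G.Adj v1 x ∧ G.Adj v2 x ∧ ¬ G.Adj v3 x
abbrev t03 (G : SimpleGraph V) (v0 v1 v2 v3 x : V) : Prop :=
  G.Adj v0 x ∧ ¬ G.Adj v1 x ∧ ¬ G.Adj v2 x ∧ G.Adj v3 x
abbrev t12 (G : SimpleGraph V) (v0 v1 v2 v3 x : V) : Prop :=
  ¬ G.Adj v0 x ∧ G.Adj v1 x ∧ G.Adj v2 x ∧ ¬ G.Adj v3 x
abbrev t13 (G : SimpleGraph V) (v0 v1 v2 v3 x : V) : Prop :=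
  ¬ G.Adj v0 x ∧ G.Adj v1 x ∧ ¬ G.Adj v2 x ∧ G.Adj v3 x
abbrev t012 (G : SimpleGraph V) (v0 v1 v2 v3 x : V) : Prop :=
  G.Adj v0 x ∧ G.Adj v1 x ∧ G.Adj v2 x ∧ ¬ G.Adj v3 x
abbrev t013 (G : SimpleGraph V) (v0 v1 v2 v3 x : V) : Prop :=
  G.Adj v0 x ∧ G.Adj v1 x ∧ ¬ G.Adj v2 x ∧ G.Adj v3 x
abbrev t023 (G : SimpleGraph V) (v0 v1 v2 v3 x : V) : Prop :=
  G.Adj v0 x ∧ ¬ G.Adj v1 x ∧ G.Adj v2 x ∧ G.Adj v3 x
abbrev t123 (G : SimpleGraph V) (v0 v1 v2 v3 x : V) : Prop :=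
  ¬ G.Adj v0 x ∧ G.Adj v1 x ∧ G.Adj v2 x ∧ G.Adj v3 x

set_option hygiene false in
/-- cases on the adjacency to the four vertices -/
macro "cs " G:term:max v0:term:max v1:term:max v2:term:max v3:term:max x:term:max : tactic =>
  `(tactic| (by_cases hh0 : ($G).Adj $v0 $x <;> by_cases hh1 : ($G).Adj $v1 $x <;>
    by_cases hh2 : ($G).Adj $v2 $x <;> by_cases hh3 : ($G).Adj $v3 $x))

/-- the module property of `F₂` if `G₀ ∪ G₁` is nonempty -/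
lemma modF (hg : NoGem G) (hp : NoP23 G) (hc : NoC5 G) (h : C22 G v0 v1 v2 v3) {f f' g y : V}
    (hf : t012 G v0 v1 v2 v3 f) (hf' : t012 G v0 v1 v2 v3 f') (g2 : G.Adj v2 g) (g3 : G.Adj v3 g)
    (g01 : (G.Adj v0 g ∧ ¬ G.Adj v1 g) ∨ (¬ G.Adj v0 g ∧ G.Adj v1 g))
    (hy : ¬ t012 G v0 v1 v2 v3 y) (y0 : v0 ≠ y) (y1 : v1 ≠ y) (y2 : v2 ≠ y) (y3 : v3 ≠ y)
    (h1 : G.Adj y f) : G.Adj y f' := by
  by_contra h2
  have hff' : f ≠ f' := by rintro rfl; exact h2 h1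
  cs G v0 v1 v2 v3 y <;> rcases g01 with g01 | g01 <;>
    first
    | (exfalso; refine hy ⟨?_, ?_, ?_, ?_⟩ <;> assumption)
    | gp 2

lemma clqF (hg : NoGem G) (hp : NoP23 G) (hc : NoC5 G) (h : C22 G v0 v1 v2 v3) {f f' g : V}
    (hf : t012 G v0 v1 v2 v3 f) (hf' : t012 G v0 v1 v2 v3 f') (g2 : G.Adj v2 g) (g3 : G.Adj v3 g)
    (g01 : (G.Adj v0 g ∧ ¬ G.Adj v1 g) ∨ (¬ G.Adj v0 g ∧ G.Adj v1 g)) (hff' : f ≠ f') :
    G.Adj f f' := by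
  by_contra h2
  rcases g01 with g01 | g01 <;> gp 2

lemma triple (hg : NoGem G) (hp : NoP23 G) (hc : NoC5 G) (h : C22 G v0 v1 v2 v3) {x y z z' : V}
    (hx : t02 G v0 v1 v2 v3 x) (hy : t12 G v0 v1 v2 v3 y) (hz : t03 G v0 v1 v2 v3 z)
    (hz' : t03 G v0 v1 v2 v3 z') (hzz' : z ≠ z') : False := by
  gp 3

lemma w_empty (hg : NoGem G) (hp : NoP23 G) (hc : NoC5 G) (h : C22 G v0 v1 v2 v3) {w x x' y : V}
    (hx : t02 G v0 v1 v2 v3 x) (hx' : t02 G v0 v1 v2 v3 x') (hy : t13 G v0 v1 v2 v3 y)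
    (w0 : G.Adj v0 w) (w1 : G.Adj v1 w) (w2 : G.Adj v2 w) (w3 : G.Adj v3 w) (hxx' : x ≠ x') :
    False := by
  gp 3

/-- the vertices of `R` are of types `∅, 01, 23, 02, 03, 12, 13, 012, 013, 0123` -/
def RCfg (G : SimpleGraph V) (v0 v1 v2 v3 : V) (R : Finset V) : Prop :=
  (∀ x ∈ R, v0 ≠ x ∧ v1 ≠ x ∧ v2 ≠ x ∧ v3 ≠ x) ∧
  (∀ x ∈ R, G.Adj v2 x → G.Adj v3 x → (G.Adj v0 x ↔ G.Adj v1 x))

lemma clus0 (hg : NoGem G) (hp : NoP23 G) (hc : NoC5 G) (h : C22 G v0 v1 v2 v3) {R : Finset V}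
    (hR : RCfg G v0 v1 v2 v3 R) (h12 : ∀ x ∈ R, ¬ t12 G v0 v1 v2 v3 x)
    (h13 : ∀ x ∈ R, ¬ t13 G v0 v1 v2 v3 x) : Clus G (R.filter (fun x => ¬ G.Adj v0 x)) := by
  intro x hx y hy z hz hxy hyz hxz
  rw [mem_filter] at hx hy hz
  obtain ⟨x0, x1, x2, x3⟩ := hR.1 x hx.1
  obtain ⟨y0, y1, y2, y3⟩ := hR.1 y hy.1
  obtain ⟨z0, z1, z2, z3⟩ := hR.1 z hz.1
  have hx' := hx.2
  have hy' := hy.2
  have hz' := hz.2
  by_contra hcon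
  have key : ∀ w ∈ R, ¬ G.Adj v0 w → ¬ G.Adj v1 w := by
    intro w hw hw0 hw1
    have h12 := h12 w hw
    have h13 := h13 w hw
    have h23 := hR.2 w hw
    obtain ⟨w0, w1, w2, w3⟩ := hR.1 w hw
    by_cases hw2 : G.Adj v2 w
    · by_cases hw3 : G.Adj v3 w
      · exact hw0 ((h23 hw2 hw3).2 hw1)
      · exact h12 ⟨hw0, hw1, hw2, hw3⟩
    · by_cases hw3 : G.Adj v3 w
      · exact h13 ⟨hw0, hw1, hw2, hw3⟩
      · clear h12 h13 h23; gp 2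
  have kx := key x hx.1 hx.2
  have ky := key y hy.1 hy.2
  have kz := key z hz.1 hz.2
  gp 3

lemma clus2 (hg : NoGem G) (hp : NoP23 G) (hc : NoC5 G) (h : C22 G v0 v1 v2 v3) {R : Finset V}
    (hR : RCfg G v0 v1 v2 v3 R) (h03 : ∀ x ∈ R, ¬ t03 G v0 v1 v2 v3 x)
    (h13 : ∀ x ∈ R, ¬ t13 G v0 v1 v2 v3 x) {a b : V} (ha : t02 G v0 v1 v2 v3 a)
    (hb : t12 G v0 v1 v2 v3 b) : Clus G (R.filter (fun x => ¬ G.Adj v2 x)) := by
  intro x hx y hy z hz hxy hyz hxz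
  rw [mem_filter] at hx hy hz
  obtain ⟨x0, x1, x2, x3⟩ := hR.1 x hx.1
  obtain ⟨y0, y1, y2, y3⟩ := hR.1 y hy.1
  obtain ⟨z0, z1, z2, z3⟩ := hR.1 z hz.1
  have hx' := hx.2
  have hy' := hy.2
  have hz' := hz.2
  by_contra hcon
  have key : ∀ w ∈ R, ¬ G.Adj v2 w → ¬ G.Adj v3 w := by
    intro w hw hw0 hw1
    have h03 := h03 w hw
    have h13 := h13 w hw
    obtain ⟨w0, w1, w2, w3⟩ := hR.1 w hw
    by_cases hw2 : G.Adj v0 w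
    · by_cases hw3 : G.Adj v1 w
      · clear h03 h13; gp 3
      · exact h03 ⟨hw2, hw3, hw0, hw1⟩
    · by_cases hw3 : G.Adj v1 w
      · exact h13 ⟨hw2, hw3, hw0, hw1⟩
      · clear h03 h13; gp 2
  have kx := key x hx.1 hx.2
  have ky := key y hy.1 hy.2
  have kz := key z hz.1 hz.2
  gp 3

/-- `K₁` is a module in the crossing case -/
lemma modK1 (hg : NoGem G) (hp : NoP23 G) (hc : NoC5 G) (h : C22 G v0 v1 v2 v3) {R : Finset V}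
    (hR : RCfg G v0 v1 v2 v3 R) (h03 : ∀ x ∈ R, ¬ t03 G v0 v1 v2 v3 x)
    (h12 : ∀ x ∈ R, ¬ t12 G v0 v1 v2 v3 x) (hW : ∀ x ∈ R, ¬ (G.Adj v0 x ∧ G.Adj v1 x ∧ G.Adj v2 x ∧
      G.Adj v3 x)) {a b k k' y : V} (ha : t02 G v0 v1 v2 v3 a)
    (hb : t13 G v0 v1 v2 v3 b) (hy : y ∈ R) (hy' : ¬ t01 G v0 v1 v2 v3 y)
    (hk : t01 G v0 v1 v2 v3 k) (hk' : t01 G v0 v1 v2 v3 k') (h1 : G.Adj y k) : G.Adj y k' := by
  by_contra h2
  have hkk' : k ≠ k' := by rintro rfl; exact h2 h1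
  have h03 := h03 y hy
  have h12 := h12 y hy
  have hW := hW y hy
  have h23 := hR.2 y hy
  have h23a : ¬ t023 G v0 v1 v2 v3 y := fun t => t.2.1 ((h23 t.2.2.1 t.2.2.2).1 t.1)
  have h23b : ¬ t123 G v0 v1 v2 v3 y := fun t => t.1 ((h23 t.2.2.1 t.2.2.2).2 t.2.1)
  obtain ⟨y0, y1, y2, y3⟩ := hR.1 y hy
  cs G v0 v1 v2 v3 y <;>
    first
    | (exfalso; refine hy' ⟨?_, ?_, ?_, ?_⟩ <;> assumption)
    | (exfalso; refine h03 ⟨?_, ?_, ?_, ?_⟩ <;> assumption)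
    | (exfalso; refine h12 ⟨?_, ?_, ?_, ?_⟩ <;> assumption)
    | (exfalso; refine hW ⟨?_, ?_, ?_, ?_⟩ <;> assumption)
    | (exfalso; refine h23a ⟨?_, ?_, ?_, ?_⟩ <;> assumption)
    | (exfalso; refine h23b ⟨?_, ?_, ?_, ?_⟩ <;> assumption)
    | (clear h03 h12 hW h23 hy' h23a h23b; gp 3)

/-- `K₂` is a module in the crossing case -/
lemma modK2 (hg : NoGem G) (hp : NoP23 G) (hc : NoC5 G) (h : C22 G v0 v1 v2 v3) {R : Finset V}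
    (hR : RCfg G v0 v1 v2 v3 R) (h03 : ∀ x ∈ R, ¬ t03 G v0 v1 v2 v3 x)
    (h12 : ∀ x ∈ R, ¬ t12 G v0 v1 v2 v3 x) (hW : ∀ x ∈ R, ¬ (G.Adj v0 x ∧ G.Adj v1 x ∧ G.Adj v2 x ∧
      G.Adj v3 x)) {a b k k' y : V} (ha : t02 G v0 v1 v2 v3 a)
    (hb : t13 G v0 v1 v2 v3 b) (hy : y ∈ R) (hy' : ¬ t23 G v0 v1 v2 v3 y)
    (hk : t23 G v0 v1 v2 v3 k) (hk' : t23 G v0 v1 v2 v3 k') (h1 : G.Adj y k) : G.Adj y k' := by
  by_contra h2
  have hkk' : k ≠ k' := by rintro rfl; exact h2 h1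
  have h03 := h03 y hy
  have h12 := h12 y hy
  have hW := hW y hy
  have h23 := hR.2 y hy
  have h23a : ¬ t023 G v0 v1 v2 v3 y := fun t => t.2.1 ((h23 t.2.2.1 t.2.2.2).1 t.1)
  have h23b : ¬ t123 G v0 v1 v2 v3 y := fun t => t.1 ((h23 t.2.2.1 t.2.2.2).2 t.2.1)
  obtain ⟨y0, y1, y2, y3⟩ := hR.1 y hy
  cs G v0 v1 v2 v3 y <;>
    first
    | (exfalso; refine hy' ⟨?_, ?_, ?_, ?_⟩ <;> assumption)
    | (exfalso; refine h03 ⟨?_, ?_, ?_, ?_⟩ <;> assumption)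
    | (exfalso; refine h12 ⟨?_, ?_, ?_, ?_⟩ <;> assumption)
    | (exfalso; refine hW ⟨?_, ?_, ?_, ?_⟩ <;> assumption)
    | (exfalso; refine h23a ⟨?_, ?_, ?_, ?_⟩ <;> assumption)
    | (exfalso; refine h23b ⟨?_, ?_, ?_, ?_⟩ <;> assumption)
    | (clear h03 h12 hW h23 hy' h23a h23b; gp 3)

lemma clqK1 (hg : NoGem G) (hp : NoP23 G) (hc : NoC5 G) (h : C22 G v0 v1 v2 v3) {k k' : V}
    (hk : t01 G v0 v1 v2 v3 k) (hk' : t01 G v0 v1 v2 v3 k') (hkk : k ≠ k') : G.Adj k k' := by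
  by_contra h2
  gp 3

lemma clqK2 (hg : NoGem G) (hp : NoP23 G) (hc : NoC5 G) (h : C22 G v0 v1 v2 v3) {k k' : V}
    (hk : t23 G v0 v1 v2 v3 k) (hk' : t23 G v0 v1 v2 v3 k') (hkk : k ≠ k') : G.Adj k k' := by
  by_contra h2
  gp 3


/-! ### symmetries -/

lemma s01 (h : C22 G v0 v1 v2 v3) : C22 G v1 v0 v2 v3 :=
  ⟨h.1.symm, h.2.1, h.2.2.2.2.1, h.2.2.2.2.2, h.2.2.1, h.2.2.2.1⟩

lemma s23 (h : C22 G v0 v1 v2 v3) : C22 G v0 v1 v3 v2 :=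
  ⟨h.1, h.2.1.symm, h.2.2.2.1, h.2.2.1, h.2.2.2.2.2, h.2.2.2.2.1⟩

lemma sw (h : C22 G v0 v1 v2 v3) : C22 G v2 v3 v0 v1 :=
  ⟨h.2.1, h.1, fun h' => h.2.2.1 h'.symm, fun h' => h.2.2.2.2.1 h'.symm,
    fun h' => h.2.2.2.1 h'.symm, fun h' => h.2.2.2.2.2 h'.symm⟩

lemma RCfg.s01 {R : Finset V} (h : RCfg G v0 v1 v2 v3 R) : RCfg G v1 v0 v2 v3 R :=
  ⟨fun x hx => ⟨(h.1 x hx).2.1, (h.1 x hx).1, (h.1 x hx).2.2⟩,
    fun x hx h2 h3 => (h.2 x hx h2 h3).symm⟩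

lemma RCfg.s23 {R : Finset V} (h : RCfg G v0 v1 v2 v3 R) : RCfg G v0 v1 v3 v2 R :=
  ⟨fun x hx => ⟨(h.1 x hx).1, (h.1 x hx).2.1, (h.1 x hx).2.2.2, (h.1 x hx).2.2.1⟩,
    fun x hx h2 h3 => h.2 x hx h3 h2⟩

lemma prop_aux (r a b c d : Prop) (hr : r) (h1 : ¬ (a ∧ b ∧ ¬ c ∧ ¬ d)) (h2 : ¬ (¬ a ∧ ¬ b ∧ c ∧ d))
    (h03 : ¬ (a ∧ ¬ b ∧ ¬ c ∧ d)) (h12 : ¬ (¬ a ∧ b ∧ c ∧ ¬ d)) (hW : ¬ (a ∧ b ∧ c ∧ d))
    (h23 : c → d → (a ↔ b)) (s0 : ¬ (a ∧ ¬ b ∧ ¬ c ∧ ¬ d)) (s1 : ¬ (¬ a ∧ b ∧ ¬ c ∧ ¬ d))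
    (s2 : ¬ (¬ a ∧ ¬ b ∧ c ∧ ¬ d)) (s3 : ¬ (¬ a ∧ ¬ b ∧ ¬ c ∧ d)) :
    ((r ∧ a ∧ c ∧ ¬ d) ∨ (r ∧ b ∧ d ∧ ¬ c)) ∨ (r ∧ ¬ a ∧ ¬ b ∧ ¬ c ∧ ¬ d) := by
  by_cases ha : a <;> by_cases hb : b <;> by_cases hc : c <;> by_cases hd : d <;> simp_all

/-- the crossing case -/
lemma cross {M : ℕ → ℕ} (hM : ∀ (V : Type) (G : SimpleGraph V) (K : ℕ)
    (R C : Finset V), BD G K (R \ C) → BD G 1 C →
    (∀ x ∈ R, x ∉ C → ∀ c ∈ C, ∀ c' ∈ C, G.Adj x c → G.Adj x c') → BD G (M K) R) {KC : ℕ}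
    (hC : ∀ (V : Type) (G : SimpleGraph V), NoGem G → NoP23 G → NoC5 G →
    ∀ (v0 v1 v2 v3 : V), C22 G v0 v1 v2 v3 → ∀ (P Q A : Finset V),
    (∀ x ∈ P, G.Adj v0 x ∧ G.Adj v2 x ∧ ¬ G.Adj v3 x) →
    (∀ x ∈ Q, G.Adj v1 x ∧ G.Adj v3 x ∧ ¬ G.Adj v2 x) →
    (∀ x ∈ A, ¬ G.Adj v0 x ∧ ¬ G.Adj v1 x ∧ ¬ G.Adj v2 x ∧ ¬ G.Adj v3 x) →
    (∃ x ∈ P, ¬ G.Adj v1 x) → (∃ x ∈ Q, ¬ G.Adj v0 x) →
    BD G KC (P ∪ Q ∪ A))
    (hg : NoGem G) (hp : NoP23 G) (hc : NoC5 G) (h : C22 G v0 v1 v2 v3) {R : Finset V}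
    (hR : RCfg G v0 v1 v2 v3 R) (h03 : ∀ x ∈ R, ¬ t03 G v0 v1 v2 v3 x)
    (h12 : ∀ x ∈ R, ¬ t12 G v0 v1 v2 v3 x) (h02 : ∃ x ∈ R, t02 G v0 v1 v2 v3 x)
    (h02' : ∀ x ∈ R, t02 G v0 v1 v2 v3 x → ∃ y ∈ R, x ≠ y ∧ t02 G v0 v1 v2 v3 y)
    (h13 : ∃ x ∈ R, t13 G v0 v1 v2 v3 x) : BD G (M (M KC)) R := by
  obtain ⟨a, haR, ha⟩ := h02
  obtain ⟨b, hbR, hb⟩ := h13
  obtain ⟨a', haR', haa', ha'⟩ := h02' a haR ha
  have hW : ∀ x ∈ R, ¬ (G.Adj v0 x ∧ G.Adj v1 x ∧ G.Adj v2 x ∧ G.Adj v3 x) := fun x hx hw =>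
    w_empty hg hp hc h ha ha' hb hw.1 hw.2.1 hw.2.2.1 hw.2.2.2 haa'
  apply hM V G (M KC) R (R.filter (fun x => t01 G v0 v1 v2 v3 x))
  · apply hM V G KC _ (R.filter (fun x => t23 G v0 v1 v2 v3 x))
    · refine (hC V G hg hp hc v0 v1 v2 v3 h
        (R.filter (fun x => G.Adj v0 x ∧ G.Adj v2 x ∧ ¬ G.Adj v3 x))
        (R.filter (fun x => G.Adj v1 x ∧ G.Adj v3 x ∧ ¬ G.Adj v2 x))
        (R.filter (fun x => ¬ G.Adj v0 x ∧ ¬ G.Adj v1 x ∧ ¬ G.Adj v2 x ∧ ¬ G.Adj v3 x))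
        (fun x hx => (mem_filter.1 hx).2) (fun x hx => (mem_filter.1 hx).2)
        (fun x hx => (mem_filter.1 hx).2)
        ⟨a, mem_filter.2 ⟨haR, ha.1, ha.2.2.1, ha.2.2.2⟩, ha.2.1⟩
        ⟨b, mem_filter.2 ⟨hbR, hb.2.1, hb.2.2.2, hb.2.2.1⟩, hb.1⟩).sub ?_
      intro x hx
      simp only [mem_filter, mem_union]
      rw [mem_sdiff, mem_filter, mem_sdiff, mem_filter] at hx
      obtain ⟨⟨hxR, h1⟩, h2⟩ := hx
      have h1 : ¬ t01 G v0 v1 v2 v3 x := fun t => h1 ⟨hxR, t⟩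
      have h2 : ¬ t23 G v0 v1 v2 v3 x := fun t => h2 ⟨hxR, t⟩
      have h03 := h03 x hxR
      have h12 := h12 x hxR
      have hW := hW x hxR
      have h23 := hR.2 x hxR
      obtain ⟨x0, x1, x2, x3⟩ := hR.1 x hxR
      have hs0 : ¬ (G.Adj v0 x ∧ ¬ G.Adj v1 x ∧ ¬ G.Adj v2 x ∧ ¬ G.Adj v3 x) := by
        rintro ⟨hh0, hh1, hh2, hh3⟩
        clear h1 h2 h03 h12 hW h23 haR hbR haR' haa' ha' ha hb
        gp 1
      have hs1 : ¬ (¬ G.Adj v0 x ∧ G.Adj v1 x ∧ ¬ G.Adj v2 x ∧ ¬ G.Adj v3 x) := by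
        rintro ⟨hh0, hh1, hh2, hh3⟩
        clear h1 h2 h03 h12 hW h23 haR hbR haR' haa' ha' ha hb
        gp 1
      have hs2 : ¬ (¬ G.Adj v0 x ∧ ¬ G.Adj v1 x ∧ G.Adj v2 x ∧ ¬ G.Adj v3 x) := by
        rintro ⟨hh0, hh1, hh2, hh3⟩
        clear h1 h2 h03 h12 hW h23 haR hbR haR' haa' ha' ha hb
        gp 1
      have hs3 : ¬ (¬ G.Adj v0 x ∧ ¬ G.Adj v1 x ∧ ¬ G.Adj v2 x ∧ G.Adj v3 x) := by
        rintro ⟨hh0, hh1, hh2, hh3⟩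
        clear h1 h2 h03 h12 hW h23 haR hbR haR' haa' ha' ha hb
        gp 1
      exact prop_aux _ _ _ _ _ hxR h1 h2 h03 h12 hW h23 hs0 hs1 hs2 hs3
    · apply BD.clq
      intro x hx y hy hxy
      exact clqK2 hg hp hc h (mem_filter.1 hx).2 (mem_filter.1 hy).2 hxy
    · intro x hx hx' c hc1 c' hc2 hxc
      rw [mem_filter] at hc1 hc2
      have hxR := (mem_sdiff.1 hx).1
      exact modK2 hg hp hc h hR h03 h12 hW ha hb hxR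
        (fun t => hx' (mem_filter.2 ⟨hxR, t⟩)) hc1.2 hc2.2 hxc
  · apply BD.clq
    intro x hx y hy hxy
    exact clqK1 hg hp hc h (mem_filter.1 hx).2 (mem_filter.1 hy).2 hxy
  · intro x hx hx' c hc1 c' hc2 hxc
    rw [mem_filter] at hc1 hc2
    exact modK1 hg hp hc h hR h03 h12 hW ha hb hx
      (fun t => hx' (mem_filter.2 ⟨hx, t⟩)) hc1.2 hc2.2 hxc


/-- `G₀ = G₁ = ∅`, every `E` type empty or with at least two elements -/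
lemma stepA {M : ℕ → ℕ} (hM : ∀ (V : Type) (G : SimpleGraph V) (K : ℕ)
    (R C : Finset V), BD G K (R \ C) → BD G 1 C →
    (∀ x ∈ R, x ∉ C → ∀ c ∈ C, ∀ c' ∈ C, G.Adj x c → G.Adj x c') → BD G (M K) R) {KC KZ : ℕ}
    (hC : ∀ (V : Type) (G : SimpleGraph V), NoGem G → NoP23 G → NoC5 G →
    ∀ (v0 v1 v2 v3 : V), C22 G v0 v1 v2 v3 → ∀ (P Q A : Finset V),
    (∀ x ∈ P, G.Adj v0 x ∧ G.Adj v2 x ∧ ¬ G.Adj v3 x) →
    (∀ x ∈ Q, G.Adj v1 x ∧ G.Adj v3 x ∧ ¬ G.Adj v2 x) →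
    (∀ x ∈ A, ¬ G.Adj v0 x ∧ ¬ G.Adj v1 x ∧ ¬ G.Adj v2 x ∧ ¬ G.Adj v3 x) →
    (∃ x ∈ P, ¬ G.Adj v1 x) → (∃ x ∈ Q, ¬ G.Adj v0 x) →
    BD G KC (P ∪ Q ∪ A))
    (hZ : ∀ (V : Type) (G : SimpleGraph V), NoGem G → NoP23 G → NoC5 G → ∀ (v : V) (R : Finset V),
      Clus G (R.filter (fun x => ¬ G.Adj v x)) → BD G KZ R)
    (hg : NoGem G) (hp : NoP23 G) (hc : NoC5 G) (h : C22 G v0 v1 v2 v3) {R : Finset V}
    (hR : RCfg G v0 v1 v2 v3 R)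
    (h02' : ∀ x ∈ R, t02 G v0 v1 v2 v3 x → ∃ y ∈ R, x ≠ y ∧ t02 G v0 v1 v2 v3 y)
    (h03' : ∀ x ∈ R, t03 G v0 v1 v2 v3 x → ∃ y ∈ R, x ≠ y ∧ t03 G v0 v1 v2 v3 y)
    (h12' : ∀ x ∈ R, t12 G v0 v1 v2 v3 x → ∃ y ∈ R, x ≠ y ∧ t12 G v0 v1 v2 v3 y)
    (h13' : ∀ x ∈ R, t13 G v0 v1 v2 v3 x → ∃ y ∈ R, x ≠ y ∧ t13 G v0 v1 v2 v3 y) :
    BD G (max KZ (M (M KC))) R := by
  have c01 : ∀ x, t02 G v1 v0 v2 v3 x ↔ t12 G v0 v1 v2 v3 x := fun x =>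
    ⟨fun t => ⟨t.2.1, t.1, t.2.2⟩, fun t => ⟨t.2.1, t.1, t.2.2⟩⟩
  have c02 : ∀ x, t03 G v1 v0 v2 v3 x ↔ t13 G v0 v1 v2 v3 x := fun x =>
    ⟨fun t => ⟨t.2.1, t.1, t.2.2⟩, fun t => ⟨t.2.1, t.1, t.2.2⟩⟩
  have c03 : ∀ x, t12 G v1 v0 v2 v3 x ↔ t02 G v0 v1 v2 v3 x := fun x =>
    ⟨fun t => ⟨t.2.1, t.1, t.2.2⟩, fun t => ⟨t.2.1, t.1, t.2.2⟩⟩
  have c04 : ∀ x, t13 G v1 v0 v2 v3 x ↔ t03 G v0 v1 v2 v3 x := fun x =>
    ⟨fun t => ⟨t.2.1, t.1, t.2.2⟩, fun t => ⟨t.2.1, t.1, t.2.2⟩⟩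
  have d01 : ∀ x, t02 G v0 v1 v3 v2 x ↔ t03 G v0 v1 v2 v3 x := fun x =>
    ⟨fun t => ⟨t.1, t.2.1, t.2.2.2, t.2.2.1⟩, fun t => ⟨t.1, t.2.1, t.2.2.2, t.2.2.1⟩⟩
  have d02 : ∀ x, t03 G v0 v1 v3 v2 x ↔ t02 G v0 v1 v2 v3 x := fun x =>
    ⟨fun t => ⟨t.1, t.2.1, t.2.2.2, t.2.2.1⟩, fun t => ⟨t.1, t.2.1, t.2.2.2, t.2.2.1⟩⟩
  have d03 : ∀ x, t12 G v0 v1 v3 v2 x ↔ t13 G v0 v1 v2 v3 x := fun x =>
    ⟨fun t => ⟨t.1, t.2.1, t.2.2.2, t.2.2.1⟩, fun t => ⟨t.1, t.2.1, t.2.2.2, t.2.2.1⟩⟩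
  have d04 : ∀ x, t13 G v0 v1 v3 v2 x ↔ t12 G v0 v1 v2 v3 x := fun x =>
    ⟨fun t => ⟨t.1, t.2.1, t.2.2.2, t.2.2.1⟩, fun t => ⟨t.1, t.2.1, t.2.2.2, t.2.2.1⟩⟩
  by_cases e02 : ∃ x ∈ R, t02 G v0 v1 v2 v3 x
  · by_cases e12 : ∃ x ∈ R, t12 G v0 v1 v2 v3 x
    · -- `E₀₂, E₁₂`
      have n03 : ∀ x ∈ R, ¬ t03 G v0 v1 v2 v3 x := by
        intro z hz hz'
        obtain ⟨x, _, hx⟩ := e02
        obtain ⟨y, _, hy⟩ := e12
        obtain ⟨z', _, hzz', hz''⟩ := h03' z hz hz'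
        exact triple hg hp hc h hx hy hz' hz'' hzz'
      have n13 : ∀ x ∈ R, ¬ t13 G v0 v1 v2 v3 x := by
        intro z hz hz'
        obtain ⟨x, _, hx⟩ := e02
        obtain ⟨y, _, hy⟩ := e12
        obtain ⟨z', _, hzz', hz''⟩ := h13' z hz hz'
        exact triple hg hp hc (s01 h) ((c01 y).2 hy) ((c03 x).2 hx) ((c02 z).2 hz')
          ((c02 z').2 hz'') hzz'
      obtain ⟨x, _, hx⟩ := e02
      obtain ⟨y, _, hy⟩ := e12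
      exact (hZ V G hg hp hc v2 R (clus2 hg hp hc h hR n03 n13 hx hy)).mono (le_max_left _ _)
    · have n12 : ∀ x ∈ R, ¬ t12 G v0 v1 v2 v3 x := fun x hx hx' => e12 ⟨x, hx, hx'⟩
      by_cases e13 : ∃ x ∈ R, t13 G v0 v1 v2 v3 x
      · -- `E₀₂, E₁₃`
        have n03 : ∀ x ∈ R, ¬ t03 G v0 v1 v2 v3 x := by
          intro z hz hz'
          obtain ⟨x, hxR, hx⟩ := e02
          obtain ⟨y, _, hy⟩ := e13
          obtain ⟨x', _, hxx', hx'⟩ := h02' x hxR hx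
          exact triple hg hp hc (s23 h) ((d01 z).2 hz') ((d03 y).2 hy) ((d02 x).2 hx)
            ((d02 x').2 hx') hxx'
        exact (cross hM hC hg hp hc h hR n03 n12 e02 h02' e13).mono (le_max_right _ _)
      · have n13 : ∀ x ∈ R, ¬ t13 G v0 v1 v2 v3 x := fun x hx hx' => e13 ⟨x, hx, hx'⟩
        exact (hZ V G hg hp hc v0 R (clus0 hg hp hc h hR n12 n13)).mono (le_max_left _ _)
  · have n02 : ∀ x ∈ R, ¬ t02 G v0 v1 v2 v3 x := fun x hx hx' => e02 ⟨x, hx, hx'⟩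
    by_cases e03 : ∃ x ∈ R, t03 G v0 v1 v2 v3 x
    · by_cases e13 : ∃ x ∈ R, t13 G v0 v1 v2 v3 x
      · -- `E₀₃, E₁₃`
        have n12 : ∀ x ∈ R, ¬ t12 G v0 v1 v2 v3 x := by
          intro z hz hz'
          obtain ⟨x, _, hx⟩ := e03
          obtain ⟨y, _, hy⟩ := e13
          obtain ⟨z', _, hzz', hz''⟩ := h12' z hz hz'
          have hx2 : t12 G v1 v0 v3 v2 x := ⟨hx.2.1, hx.1, hx.2.2.2, hx.2.2.1⟩
          have hy2 : t02 G v1 v0 v3 v2 y := ⟨hy.2.1, hy.1, hy.2.2.2, hy.2.2.1⟩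
          have hz2 : t03 G v1 v0 v3 v2 z := ⟨hz'.2.1, hz'.1, hz'.2.2.2, hz'.2.2.1⟩
          have hz3 : t03 G v1 v0 v3 v2 z' := ⟨hz''.2.1, hz''.1, hz''.2.2.2, hz''.2.2.1⟩
          exact triple hg hp hc (s01 (s23 h)) hy2 hx2 hz2 hz3 hzz'
        obtain ⟨x, _, hx⟩ := e03
        obtain ⟨y, _, hy⟩ := e13
        exact (hZ V G hg hp hc v3 R (clus2 hg hp hc (s23 h) hR.s23
          (fun x hx hx' => n02 x hx ((d02 x).1 hx')) (fun x hx hx' => n12 x hx ((d04 x).1 hx'))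
          ((d01 x).2 hx) ((d03 y).2 hy))).mono (le_max_left _ _)
      · have n13 : ∀ x ∈ R, ¬ t13 G v0 v1 v2 v3 x := fun x hx hx' => e13 ⟨x, hx, hx'⟩
        by_cases e12 : ∃ x ∈ R, t12 G v0 v1 v2 v3 x
        · -- `E₀₃, E₁₂`
          refine (cross hM hC hg hp hc (s01 h) hR.s01 (fun x hx hx' => n13 x hx ((c02 x).1 hx'))
            (fun x hx hx' => n02 x hx ((c03 x).1 hx')) ?_ ?_ ?_).mono (le_max_right _ _)
          · obtain ⟨x, hx, hx'⟩ := e12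
            exact ⟨x, hx, (c01 x).2 hx'⟩
          · intro x hx hx'
            obtain ⟨y, hy, hxy, hy'⟩ := h12' x hx ((c01 x).1 hx')
            exact ⟨y, hy, hxy, (c01 y).2 hy'⟩
          · obtain ⟨x, hx, hx'⟩ := e03
            exact ⟨x, hx, (c04 x).2 hx'⟩
        · have n12 : ∀ x ∈ R, ¬ t12 G v0 v1 v2 v3 x := fun x hx hx' => e12 ⟨x, hx, hx'⟩
          exact (hZ V G hg hp hc v0 R (clus0 hg hp hc h hR n12 n13)).mono (le_max_left _ _)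
    · have n03 : ∀ x ∈ R, ¬ t03 G v0 v1 v2 v3 x := fun x hx hx' => e03 ⟨x, hx, hx'⟩
      exact (hZ V G hg hp hc v1 R (clus0 hg hp hc (s01 h) hR.s01
        (fun x hx hx' => n02 x hx ((c03 x).1 hx'))
        (fun x hx hx' => n03 x hx ((c04 x).1 hx')))).mono (le_max_left _ _)


/-- data of the two bounds -/
structure Dat (M : ℕ → ℕ) (KC KZ : ℕ) : Prop where
  hM : ∀ (V : Type) (G : SimpleGraph V) (K : ℕ)
    (R C : Finset V), BD G K (R \ C) → BD G 1 C →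
    (∀ x ∈ R, x ∉ C → ∀ c ∈ C, ∀ c' ∈ C, G.Adj x c → G.Adj x c') → BD G (M K) R
  hC : ∀ (V : Type) (G : SimpleGraph V), NoGem G → NoP23 G → NoC5 G →
    ∀ (v0 v1 v2 v3 : V), C22 G v0 v1 v2 v3 → ∀ (P Q A : Finset V),
    (∀ x ∈ P, G.Adj v0 x ∧ G.Adj v2 x ∧ ¬ G.Adj v3 x) →
    (∀ x ∈ Q, G.Adj v1 x ∧ G.Adj v3 x ∧ ¬ G.Adj v2 x) →
    (∀ x ∈ A, ¬ G.Adj v0 x ∧ ¬ G.Adj v1 x ∧ ¬ G.Adj v2 x ∧ ¬ G.Adj v3 x) →
    (∃ x ∈ P, ¬ G.Adj v1 x) → (∃ x ∈ Q, ¬ G.Adj v0 x) →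
    BD G KC (P ∪ Q ∪ A)
  hZ : ∀ (V : Type) (G : SimpleGraph V), NoGem G → NoP23 G → NoC5 G → ∀ (v : V) (R : Finset V),
      Clus G (R.filter (fun x => ¬ G.Adj v x)) → BD G KZ R

lemma stepB {M : ℕ → ℕ} {KC KZ : ℕ} (D : Dat M KC KZ)
    (hg : NoGem G) (hp : NoP23 G) (hc : NoC5 G) (h : C22 G v0 v1 v2 v3) {R : Finset V}
    (hR : RCfg G v0 v1 v2 v3 R) : BD G ((max KZ (M (M KC)) + 1) * 2 ^ 4) R := by
  set X1 := R.filter (fun x => t02 G v0 v1 v2 v3 x ∧ ∀ y ∈ R, t02 G v0 v1 v2 v3 y → x = y) with hX1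
  set X2 := R.filter (fun x => t03 G v0 v1 v2 v3 x ∧ ∀ y ∈ R, t03 G v0 v1 v2 v3 y → x = y) with hX2
  set X3 := R.filter (fun x => t12 G v0 v1 v2 v3 x ∧ ∀ y ∈ R, t12 G v0 v1 v2 v3 y → x = y) with hX3
  set X4 := R.filter (fun x => t13 G v0 v1 v2 v3 x ∧ ∀ y ∈ R, t13 G v0 v1 v2 v3 y → x = y) with hX4
  have k1 : X1.card ≤ 1 := by
    rw [card_le_one]
    intro a ha b hb
    rw [hX1, mem_filter] at ha hb
    exact ha.2.2 b hb.1 hb.2.1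
  have k2 : X2.card ≤ 1 := by
    rw [card_le_one]
    intro a ha b hb
    rw [hX2, mem_filter] at ha hb
    exact ha.2.2 b hb.1 hb.2.1
  have k3 : X3.card ≤ 1 := by
    rw [card_le_one]
    intro a ha b hb
    rw [hX3, mem_filter] at ha hb
    exact ha.2.2 b hb.1 hb.2.1
  have k4 : X4.card ≤ 1 := by
    rw [card_le_one]
    intro a ha b hb
    rw [hX4, mem_filter] at ha hb
    exact ha.2.2 b hb.1 hb.2.1
  apply BD.of_sdiff (X := X1 ∪ X2 ∪ X3 ∪ X4)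
  · have sub : ∀ x ∈ R \ (X1 ∪ X2 ∪ X3 ∪ X4), x ∈ R := fun x hx => (mem_sdiff.1 hx).1
    apply stepA D.hM D.hC D.hZ hg hp hc h
    · exact ⟨fun x hx => hR.1 x (sub x hx), fun x hx => hR.2 x (sub x hx)⟩
    · intro x hx hx'
      by_contra hcon
      push Not at hcon
      have hne : ¬ ∀ y ∈ R, t02 G v0 v1 v2 v3 y → x = y := by
        intro hall
        have : x ∈ X1 := by rw [hX1, mem_filter]; exact ⟨sub x hx, hx', hall⟩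
        exact (mem_sdiff.1 hx).2 (by simp only [mem_union]; tauto)
      push Not at hne
      obtain ⟨y, hy, hy', hxy⟩ := hne
      have hyX : y ∈ R \ (X1 ∪ X2 ∪ X3 ∪ X4) := by
        rw [mem_sdiff]
        refine ⟨hy, ?_⟩
        simp only [mem_union, hX1, hX2, hX3, hX4, mem_filter]
        rintro (((⟨_, _, h3⟩ | ⟨_, h2, _⟩) | ⟨_, h2, _⟩) | ⟨_, h2, _⟩)
        · exact hxy (h3 x (sub x hx) hx').symm
        · exact h2.2.2.1 hy'.2.2.1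
        · exact h2.1 hy'.1
        · exact h2.1 hy'.1
      exact hcon y hyX hxy hy'
    · intro x hx hx'
      by_contra hcon
      push Not at hcon
      have hne : ¬ ∀ y ∈ R, t03 G v0 v1 v2 v3 y → x = y := by
        intro hall
        have : x ∈ X2 := by rw [hX2, mem_filter]; exact ⟨sub x hx, hx', hall⟩
        exact (mem_sdiff.1 hx).2 (by simp only [mem_union]; tauto)
      push Not at hne
      obtain ⟨y, hy, hy', hxy⟩ := hne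
      have hyX : y ∈ R \ (X1 ∪ X2 ∪ X3 ∪ X4) := by
        rw [mem_sdiff]
        refine ⟨hy, ?_⟩
        simp only [mem_union, hX1, hX2, hX3, hX4, mem_filter]
        rintro (((⟨_, h2, _⟩ | ⟨_, _, h3⟩) | ⟨_, h2, _⟩) | ⟨_, h2, _⟩)
        · exact hy'.2.2.1 h2.2.2.1
        · exact hxy (h3 x (sub x hx) hx').symm
        · exact h2.1 hy'.1
        · exact h2.1 hy'.1
      exact hcon y hyX hxy hy'
    · intro x hx hx'
      by_contra hcon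
      push Not at hcon
      have hne : ¬ ∀ y ∈ R, t12 G v0 v1 v2 v3 y → x = y := by
        intro hall
        have : x ∈ X3 := by rw [hX3, mem_filter]; exact ⟨sub x hx, hx', hall⟩
        exact (mem_sdiff.1 hx).2 (by simp only [mem_union]; tauto)
      push Not at hne
      obtain ⟨y, hy, hy', hxy⟩ := hne
      have hyX : y ∈ R \ (X1 ∪ X2 ∪ X3 ∪ X4) := by
        rw [mem_sdiff]
        refine ⟨hy, ?_⟩
        simp only [mem_union, hX1, hX2, hX3, hX4, mem_filter]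
        rintro (((⟨_, h2, _⟩ | ⟨_, h2, _⟩) | ⟨_, _, h3⟩) | ⟨_, h2, _⟩)
        · exact hy'.1 h2.1
        · exact hy'.1 h2.1
        · exact hxy (h3 x (sub x hx) hx').symm
        · exact h2.2.2.1 hy'.2.2.1
      exact hcon y hyX hxy hy'
    · intro x hx hx'
      by_contra hcon
      push Not at hcon
      have hne : ¬ ∀ y ∈ R, t13 G v0 v1 v2 v3 y → x = y := by
        intro hall
        have : x ∈ X4 := by rw [hX4, mem_filter]; exact ⟨sub x hx, hx', hall⟩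
        exact (mem_sdiff.1 hx).2 (by simp only [mem_union]; tauto)
      push Not at hne
      obtain ⟨y, hy, hy', hxy⟩ := hne
      have hyX : y ∈ R \ (X1 ∪ X2 ∪ X3 ∪ X4) := by
        rw [mem_sdiff]
        refine ⟨hy, ?_⟩
        simp only [mem_union, hX1, hX2, hX3, hX4, mem_filter]
        rintro (((⟨_, h2, _⟩ | ⟨_, h2, _⟩) | ⟨_, h2, _⟩) | ⟨_, _, h3⟩)
        · exact hy'.1 h2.1
        · exact hy'.1 h2.1
        · exact hy'.2.2.1 h2.2.2.1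
        · exact hxy (h3 x (sub x hx) hx').symm
      exact hcon y hyX hxy hy'
  · have a1 := card_union_le (X1 ∪ X2 ∪ X3) X4
    have a2 := card_union_le (X1 ∪ X2) X3
    have a3 := card_union_le X1 X2
    omega

lemma stepC {M : ℕ → ℕ} {KC KZ K2 : ℕ} (D : Dat M KC KZ) (hK2 : K2 = (max KZ (M (M KC)) + 1) * 2 ^ 4)
    (hg : NoGem G) (hp : NoP23 G) (hc : NoC5 G) (h : C22 G v0 v1 v2 v3) {R : Finset V}
    (hR : ∀ x ∈ R, v0 ≠ x ∧ v1 ≠ x ∧ v2 ≠ x ∧ v3 ≠ x) :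
    BD G (max K2 (M (M (M (M K2))))) R := by
  by_cases hG : ∃ g ∈ R, G.Adj v2 g ∧ G.Adj v3 g ∧
      ((G.Adj v0 g ∧ ¬ G.Adj v1 g) ∨ (¬ G.Adj v0 g ∧ G.Adj v1 g))
  · by_cases hF : ∃ f ∈ R, G.Adj v0 f ∧ G.Adj v1 f ∧
      ((G.Adj v2 f ∧ ¬ G.Adj v3 f) ∨ (¬ G.Adj v2 f ∧ G.Adj v3 f))
    · obtain ⟨g, hgR, g2, g3, g01⟩ := hG
      obtain ⟨f, hfR, f0, f1, f23⟩ := hF
      refine BD.mono ?_ (le_max_right _ _)
      -- remove the four modules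
      apply D.hM V G _ R (R.filter (fun x => t012 G v0 v1 v2 v3 x))
      · apply D.hM V G _ _ (R.filter (fun x => t012 G v0 v1 v3 v2 x))
        · apply D.hM V G _ _ (R.filter (fun x => t012 G v2 v3 v0 v1 x))
          · apply D.hM V G _ _ (R.filter (fun x => t012 G v2 v3 v1 v0 x))
            · rw [hK2]
              apply stepB D hg hp hc h
              refine ⟨?_, ?_⟩
              · intro x hx
                simp only [mem_sdiff] at hx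
                exact hR x hx.1.1.1.1
              · intro x hx x2 x3
                rw [mem_sdiff, mem_sdiff, mem_sdiff, mem_sdiff] at hx
                obtain ⟨⟨⟨⟨hxR, h1⟩, h2⟩, h3⟩, h4⟩ := hx
                constructor
                · intro x0
                  by_contra x1
                  exact h3 (mem_filter.2 ⟨hxR, x2, x3, x0, x1⟩)
                · intro x1
                  by_contra x0
                  exact h4 (mem_filter.2 ⟨hxR, x2, x3, x1, x0⟩)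
            · apply BD.clq
              intro x hx y hy hxy
              exact clqF hg hp hc (s23 (sw h)) (mem_filter.1 hx).2 (mem_filter.1 hy).2 f1 f0 f23 hxy
            · intro x hx hx' c hc1 c' hc2 hxc
              simp only [mem_sdiff] at hx
              obtain ⟨q0, q1, q2, q3⟩ := hR x hx.1.1.1
              exact modF hg hp hc (s23 (sw h)) (mem_filter.1 hc1).2 (mem_filter.1 hc2).2 f1 f0 f23
                (fun t => hx' (mem_filter.2 ⟨hx.1.1.1, t⟩)) q2 q3 q1 q0 hxc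
          · apply BD.clq
            intro x hx y hy hxy
            exact clqF hg hp hc (sw h) (mem_filter.1 hx).2 (mem_filter.1 hy).2 f0 f1 f23 hxy
          · intro x hx hx' c hc1 c' hc2 hxc
            simp only [mem_sdiff] at hx
            obtain ⟨q0, q1, q2, q3⟩ := hR x hx.1.1
            exact modF hg hp hc (sw h) (mem_filter.1 hc1).2 (mem_filter.1 hc2).2 f0 f1 f23
              (fun t => hx' (mem_filter.2 ⟨hx.1.1, t⟩)) q2 q3 q0 q1 hxc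
        · apply BD.clq
          intro x hx y hy hxy
          exact clqF hg hp hc (s23 h) (mem_filter.1 hx).2 (mem_filter.1 hy).2 g3 g2 g01 hxy
        · intro x hx hx' c hc1 c' hc2 hxc
          simp only [mem_sdiff] at hx
          obtain ⟨q0, q1, q2, q3⟩ := hR x hx.1
          exact modF hg hp hc (s23 h) (mem_filter.1 hc1).2 (mem_filter.1 hc2).2 g3 g2 g01
            (fun t => hx' (mem_filter.2 ⟨hx.1, t⟩)) q0 q1 q3 q2 hxc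
      · apply BD.clq
        intro x hx y hy hxy
        exact clqF hg hp hc h (mem_filter.1 hx).2 (mem_filter.1 hy).2 g2 g3 g01 hxy
      · intro x hx hx' c hc1 c' hc2 hxc
        obtain ⟨q0, q1, q2, q3⟩ := hR x hx
        exact modF hg hp hc h (mem_filter.1 hc1).2 (mem_filter.1 hc2).2 g2 g3 g01
          (fun t => hx' (mem_filter.2 ⟨hx, t⟩)) q0 q1 q2 q3 hxc
    · refine BD.mono ?_ (le_max_left _ _)
      rw [hK2]
      apply stepB D hg hp hc (sw h)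
      refine ⟨fun x hx => ?_, fun x hx x0 x1 => ?_⟩
      · obtain ⟨q0, q1, q2, q3⟩ := hR x hx
        exact ⟨q2, q3, q0, q1⟩
      · constructor
        · intro x2
          by_contra x3
          exact hF ⟨x, hx, x0, x1, Or.inl ⟨x2, x3⟩⟩
        · intro x3
          by_contra x2
          exact hF ⟨x, hx, x0, x1, Or.inr ⟨x2, x3⟩⟩
  · refine BD.mono ?_ (le_max_left _ _)
    rw [hK2]
    apply stepB D hg hp hc h
    refine ⟨hR, fun x hx x2 x3 => ?_⟩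
    constructor
    · intro x0
      by_contra x1
      exact hG ⟨x, hx, x2, x3, Or.inl ⟨x0, x1⟩⟩
    · intro x1
      by_contra x0
      exact hG ⟨x, hx, x2, x3, Or.inr ⟨x0, x1⟩⟩

end Pool.Agent.H175G.N5

namespace Pool.Agent.H175G

open Finset Classical

theorem noc5_stmt (hA : AttachStmt) (hZp : ZpStmt) (hBase : BaseStmt) (hCr : CrossStmt) :
    NoC5Stmt := by
  obtain ⟨M, hM⟩ := N5.mod_of_attach hA
  obtain ⟨KZ, hZ⟩ := hZp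
  obtain ⟨KB, hB⟩ := hBase
  obtain ⟨KC, hC⟩ := hCr
  have D : N5.Dat M KC KZ := ⟨hM, hC, hZ⟩
  obtain ⟨K2, hK2⟩ : ∃ K2, K2 = (max KZ (M (M KC)) + 1) * 2 ^ 4 := ⟨_, rfl⟩
  refine ⟨max KB ((max K2 (M (M (M (M K2)))) + 1) * 2 ^ 4), ?_⟩
  intro V G hg hp hc R
  by_cases h2 : No2K2 G
  · exact (hB V G hg h2 hc R).mono (le_max_left _ _)
  · unfold No2K2 at h2
    push Not at h2
    obtain ⟨v0, v1, v2, v3, h01, h23, h02, h03, h12, h13, _⟩ := h2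
    have h : C22 G v0 v1 v2 v3 := ⟨h01, h23, h02, h03, h12, h13⟩
    refine BD.mono ?_ (le_max_right _ _)
    apply BD.of_sdiff (X := {v0, v1, v2, v3})
    · apply N5.stepC D hK2 hg hp hc h
      intro x hx
      simp only [mem_sdiff, mem_insert, mem_singleton, not_or] at hx
      exact ⟨Ne.symm hx.2.1, Ne.symm hx.2.2.1, Ne.symm hx.2.2.2.1, Ne.symm hx.2.2.2.2⟩
    · exact Finset.card_le_four

end Pool.Agent.H175G
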